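import Pool.Agent.H.MP_d04dff_lc.C

set_option autoImplicit false

/-! A limit computable path through a co-enumerable tree; a complex such path. -/

namespace Pool.Agent.H.MP_fa2eca_lc

open Pool.Agent.H.MP_d04dff_lc Pool.Agent.Lib.helper21 Filter

/-- The first `n` bits of `X`. -/
def pre (X : ℕ → Bool) (n : ℕ) : List Bool := (List.range n).map X

theorem pre_succ (X : ℕ → Bool) (n : ℕ) : pre X (n + 1) = pre X n ++ [X n] := by
  simp [pre, List.range_succ]

theorem pre_len (X : ℕ → Bool) (n : ℕ) : (pre X n).length = n := by simp [pre]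

theorem pre_take (X : ℕ → Bool) {m n : ℕ} (h : m ≤ n) : (pre X n).take m = pre X m := by
  simp [pre, ← List.map_take, List.take_range, min_eq_left h]

open Classical in
noncomputable def walk (E : Str → Prop) : ℕ → Str
  | 0 => []
  | n + 1 => walk E n ++ [decide (¬ E (walk E n ++ [false]))]

open Classical in
theorem walk_pre (E : Str → Prop) (n : ℕ) :
    pre (fun n => decide (¬ E (walk E n ++ [false]))) n = walk E n := by
  induction n with
  | zero => rfl
  | succ n ih => rw [pre_succ, ih, walk]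

theorem path {R : ℕ → Str → Prop} (hR : PrimrecRel R)
    (mono : ∀ s s' σ ρ, s ≤ s' → R s' (σ ++ ρ) → R s σ) (ne : ∀ s, ∃ σ : Str, σ.length = s ∧ R s σ) :
    ∃ (X : ℕ → Bool) (y : ℕ → ℕ → Bool), Primrec₂ y ∧ (∀ n, ∀ᶠ j in atTop, y j n = X n) ∧
      ∀ s n, R s (pre X n) := by
  classical
  let E : ℕ → Str → Prop := fun s σ => ∃ ρ ∈ all s, ρ.length = s ∧ R s (σ ++ ρ)
  have hE : PrimrecRel E := by
    have h1 : PrimrecRel fun (ρ : Str) (z : ℕ × Str) => ρ.length = z.1 ∧ R z.1 (z.2 ++ ρ) :=
      (Primrec.eq.comp (Primrec.list_length.comp Primrec.fst)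
        (Primrec.fst.comp Primrec.snd)).and (hR.comp (Primrec.fst.comp Primrec.snd)
          (Primrec.list_append.comp (Primrec.snd.comp Primrec.snd) Primrec.fst))
    exact h1.exists_mem_list.comp (all_prim.comp Primrec.fst) Primrec.id
  have Em : ∀ s s' σ, s ≤ s' → E s' σ → E s σ := fun s s' σ h ⟨ρ, _, h1, h2⟩ =>
    ⟨ρ.take s, mem_all.2 (by simp), by simp; omega, mono s s' _ (ρ.drop s) h (by simpa using h2)⟩
  let F : Str → Prop := fun σ => ∀ s, E s σ
  have lim : ∀ σ, ∀ᶠ s in atTop, (E s σ ↔ F σ) := fun σ => by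
    by_cases h : F σ
    · exact Eventually.of_forall fun s => ⟨fun _ => h, fun _ => h s⟩
    · obtain ⟨s, hs⟩ := not_forall.1 h
      filter_upwards [eventually_ge_atTop s] with t ht
      exact ⟨fun c => absurd (Em _ _ _ ht c) hs, fun c => absurd c h⟩
  have cv : ∀ n, ∀ᶠ s in atTop, walk (E s) n = walk F n := fun n => by
    induction n with
    | zero => exact Eventually.of_forall fun _ => rfl
    | succ n ih =>
      filter_upwards [ih, lim (walk F n ++ [false])] with s h1 h2
      rw [walk, walk, h1, h2]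
  have hF : ∀ n, F (walk F n) := fun n => by
    induction n with
    | zero => exact fun s => let ⟨σ, h1, h2⟩ := ne s; ⟨σ, mem_all.2 h1.le, h1, h2⟩
    | succ n ih =>
      rw [walk]
      by_cases h : F (walk F n ++ [false])
      · rw [decide_eq_false (not_not.2 h)]
        exact h
      · obtain ⟨s, hs⟩ := not_forall.1 h
        simp only [h, not_false_eq_true, decide_true]
        intro t
        obtain ⟨ρ, -, h1, h2⟩ := ih (s + t + 1)
        obtain ⟨b, ρ, rfl⟩ : ∃ b ρ', ρ = b :: ρ' := by
          cases ρ with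
          | nil => simp at h1
          | cons b ρ => exact ⟨b, ρ, rfl⟩
        have h3 : E (s + t) (walk F n ++ [b]) := ⟨ρ, mem_all.2 (by simp at h1; omega),
          by simpa using h1, mono _ _ _ [] (Nat.le_succ _) (by simpa using h2)⟩
        cases b
        · exact absurd (Em _ _ _ (by omega) h3) hs
        · exact Em _ _ _ (by omega) h3
  have h2 : Primrec₂ fun s (σ : Str) => decide (¬ E s (σ ++ [false])) :=
    (hE.comp Primrec.fst (Primrec.list_append.comp Primrec.snd
      (Primrec.const [false]))).not.decide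
  have hw : Primrec₂ fun s n => walk (E s) n := by
    refine (Primrec.nat_rec' (α := ℕ × ℕ) Primrec.snd (Primrec.const ([] : Str))
      (h := fun z w => w.2 ++ [decide (¬ E z.1 (w.2 ++ [false]))])
      (Primrec.list_append.comp (Primrec.snd.comp Primrec.snd) (Primrec.list_cons.comp
        (h2.comp (Primrec.fst.comp Primrec.fst) (Primrec.snd.comp Primrec.snd))
        (Primrec.const []))).to₂).of_eq fun z => ?_
    induction z.2 with
    | zero => rfl
    | succ n ih => simp only [walk, ← ih]
  refine ⟨fun n => decide (¬ F (walk F n ++ [false])),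
    fun s n => decide (¬ E s (walk (E s) n ++ [false])), h2.comp Primrec.fst hw, fun n => ?_,
    fun s n => ?_⟩
  · filter_upwards [cv n, lim (walk F n ++ [false])] with s h1 h2
    rw [h1, decide_eq_decide, h2]
  · have := walk_pre F n
    rw [this]
    obtain ⟨ρ, -, -, h⟩ := hF n s
    exact mono _ _ _ _ le_rfl h

theorem many (U : Str →. Str) (k : ℕ) : ∃ G : Finset Str, 4 ^ k ≤ G.card ∧ ∀ σ ∈ G,
    σ.length = 3 * k ∧ ∀ i < k, ∀ p : Str, p.length ≤ 2 * i + 1 → σ.take (3 * i + 3) ∉ U p := by
  classical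
  induction k with
  | zero => exact ⟨{[]}, by simp, by simp⟩
  | succ k ih =>
    obtain ⟨G, h1, h2⟩ := ih
    let H := (G ×ˢ (Finset.univ : Finset (Bool × Bool × Bool))).image
      fun z => z.1 ++ [z.2.1, z.2.2.1, z.2.2.2]
    have h3 : H.card = G.card * 8 := by
      rw [Finset.card_image_of_injOn, Finset.card_product]
      · rfl
      rintro ⟨σ, a⟩ hz ⟨τ, b⟩ hw e
      simp only [Finset.coe_product, Set.mem_prod, Finset.mem_coe] at hz hw
      have := List.append_inj e (by rw [(h2 _ hz.1).1, (h2 _ hw.1).1])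
      simp only [List.cons.injEq, and_true] at this
      exact Prod.ext this.1 (Prod.ext this.2.1 (Prod.ext this.2.2.1 this.2.2.2))
    let P : Str → Prop := fun σ => ∃ p, σ ∈ U p ∧ p.length ≤ 2 * k + 1
    have h4 := few (D := U) (H.filter P) fun s hs => (Finset.mem_filter.1 hs).2
    have h5 := Finset.card_sdiff_add_card_eq_card (Finset.filter_subset P H)
    refine ⟨H \ H.filter P, ?_, fun σ hσ => ?_⟩
    · rw [show 2 * k + 1 + 1 = 2 * (k + 1) by ring, pow_mul] at h4
      rw [show 2 ^ 2 = 4 by rfl, pow_succ] at h4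
      rw [pow_succ]
      omega
    · obtain ⟨h6, h7⟩ := Finset.mem_sdiff.1 hσ
      replace h7 : ¬ P σ := fun c => h7 (Finset.mem_filter.2 ⟨h6, c⟩)
      obtain ⟨⟨τ, a⟩, hz, rfl⟩ := Finset.mem_image.1 h6
      have h8 := h2 τ (Finset.mem_product.1 hz).1
      refine ⟨by simp [h8.1]; ring, fun i hi p hp c => ?_⟩
      rcases Nat.lt_succ_iff_lt_or_eq.1 hi with hi | rfl
      · rw [List.take_append_of_le_length (by have := h8.1; simp only at this ⊢; omega)] at c
        exact h8.2 i hi p hp c
      · rw [List.take_of_length_le (by simp [h8.1])] at c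
        exact h7 ⟨p, c, hp⟩

theorem complex {U : Str →. Str} (hU : Partrec U) :
    ∃ (X : ℕ → Bool) (y : ℕ → ℕ → Bool), Primrec₂ y ∧ (∀ n, ∀ᶠ j in atTop, y j n = X n) ∧
      ∀ i, ∀ p : Str, p.length ≤ 2 * i + 1 → pre X (3 * i + 3) ∉ U p := by
  obtain ⟨N, hN, Nm, Ns⟩ := approxC (U := fun p _ => U p) (hU.comp Computable.fst)
  let R : ℕ → Str → Prop := fun s σ => ∀ i < σ.length, ∀ p ∈ all (2 * i + 1),
    σ.length < 3 * i + 3 ∨ N s [] (p, σ.take (3 * i + 3)) = false
  have h0 : Primrec fun i : ℕ => 3 * i + 3 :=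
    Primrec.nat_add.comp (Primrec.nat_mul.comp (Primrec.const 3) Primrec.id) (Primrec.const 3)
  have h1 : PrimrecRel fun (p : Str) (z : ℕ × ℕ × Str) =>
      z.2.2.length < 3 * z.1 + 3 ∨ N z.2.1 [] (p, z.2.2.take (3 * z.1 + 3)) = false := by
    have a1 : Primrec fun w : Str × ℕ × ℕ × Str => w.2.2.2 :=
      Primrec.snd.comp (Primrec.snd.comp Primrec.snd)
    have a2 : Primrec fun w : Str × ℕ × ℕ × Str => 3 * w.2.1 + 3 :=
      h0.comp (Primrec.fst.comp Primrec.snd)
    have a3 := hN.comp (((Primrec.fst.comp (Primrec.snd.comp Primrec.snd)).pair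
      (Primrec.const [])).pair (Primrec.fst.pair (Primrec.list_take.comp a2 a1)))
    exact (Primrec.nat_lt.comp (Primrec.list_length.comp a1) a2).or
      (Primrec.eq.comp a3 (Primrec.const false))
  have h2 : PrimrecRel fun (i : ℕ) (z : ℕ × Str) => ∀ p ∈ all (2 * i + 1),
      z.2.length < 3 * i + 3 ∨ N z.1 [] (p, z.2.take (3 * i + 3)) = false :=
    h1.forall_mem_list.comp (all_prim.comp (Primrec.succ.comp
      (Primrec.nat_double.comp Primrec.fst))) Primrec.id
  have hR' := h2.forall_mem_list.comp (Primrec.list_range.comp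
    (Primrec.list_length.comp Primrec.snd)) Primrec.id
  have hR : PrimrecRel R := PrimrecPred.of_eq hR' fun z => by simp only [List.mem_range, R, id]
  obtain ⟨X, y, h3, h4, h5⟩ := path hR (fun s s' σ ρ h h3 i hi p hp => by
      by_cases c : σ.length < 3 * i + 3
      · exact Or.inl c
      · have := (h3 i (by simp; omega) p hp).resolve_left (by simp; omega)
        rw [List.take_append_of_le_length (by omega)] at this
        exact Or.inr (by
          by_contra c2
          rw [Nm s s' _ _ h (by simpa using c2)] at this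
          simp at this))
    fun s => by
      obtain ⟨G, h3, h4⟩ := many U s
      obtain ⟨σ, hσ⟩ := Finset.card_pos.1 (lt_of_lt_of_le (by positivity) h3)
      obtain ⟨h5, h6⟩ := h4 σ hσ
      refine ⟨σ.take s, by simp; omega, fun i hi p hp => ?_⟩
      by_cases c : (σ.take s).length < 3 * i + 3
      · exact Or.inl c
      · simp only [List.length_take] at c hi
        refine Or.inr (by
          by_contra c2
          rw [List.take_take, min_eq_left (by omega)] at c2
          exact h6 i (by omega) p (mem_all.1 hp) ((Ns [] _ _).2 ⟨s, by simpa using c2⟩))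
  refine ⟨X, y, h3, h4, fun i p hp c => ?_⟩
  obtain ⟨s, hs⟩ := (Ns [] _ _).1 c
  have := (h5 s (3 * i + 3) i (by rw [pre_len]; omega) p (mem_all.2 hp)).resolve_left
    (by rw [pre_len]; omega)
  rw [pre_take X le_rfl, hs] at this
  simp at this

theorem short {X : ℕ → Bool} {y : ℕ → ℕ → Bool} (hy : Primrec₂ y)
    (cv : ∀ n, ∀ᶠ j in atTop, y j n = X n) {B : ℕ → Bool} {i : ℕ}
    (h1 : ∃ᶠ j in atTop, B (2 * j + i) = true)
    (h2 : ∀ j, B (2 * j + i) = true → ∀ n, (∀ t, 2 * t + i < n → y j (2 * t + i) = X (2 * t + i)) →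
      pre (y j) n = pre X n) {W : Str →. Str} (hW : OptO B W) :
    ∃ c, ∀ n, K W (pre X n) ≤ n / 2 + c := by
  let f : Str → ℕ → ℕ → Option Str := fun p t v =>
    if Fn.tb v (2 * ((t - i) / 2) + i) = true ∧ 2 * ((t - i) / 2) + i < t ∧
      (List.range p.tail.length).map (fun s => y ((t - i) / 2) (2 * s + i)) = p.tail then
      some (pre (y ((t - i) / 2)) (2 * (p.tail.length - 1) + (p.headD false).toNat)) else none
  have a1 : Primrec fun z : (Str × ℕ) × ℕ => (z.1.2 - i) / 2 :=
    Primrec.nat_div.comp (Primrec.nat_sub.comp (Primrec.snd.comp Primrec.fst) (Primrec.const i))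
      (Primrec.const 2)
  have a0 : Primrec fun n : ℕ => 2 * n + i :=
    Primrec.nat_add.comp Primrec.nat_double (Primrec.const i)
  have a2 : Primrec fun z : (Str × ℕ) × ℕ => z.1.1.tail :=
    Primrec.list_tail.comp (Primrec.fst.comp Primrec.fst)
  have a3 : Primrec fun z : (Str × ℕ) × ℕ =>
      (List.range z.1.1.tail.length).map fun s => y ((z.1.2 - i) / 2) (2 * s + i) :=
    Primrec.list_map (Primrec.list_range.comp (Primrec.list_length.comp a2))
      (hy.comp (a1.comp Primrec.fst) (a0.comp Primrec.snd)).to₂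
  have a4 : Primrec fun p : Str => (p.headD false).toNat :=
    (Fn.toNat_prim.comp ((Primrec.list_getD false).comp Primrec.id (Primrec.const 0))).of_eq
      fun p => by cases p <;> rfl
  have a5 : Primrec fun z : (Str × ℕ) × ℕ =>
      2 * (z.1.1.tail.length - 1) + (z.1.1.headD false).toNat :=
    Primrec.nat_add.comp (Primrec.nat_double.comp (Primrec.nat_sub.comp
      (Primrec.list_length.comp a2) (Primrec.const 1))) (a4.comp (Primrec.fst.comp Primrec.fst))
  have a6 : Primrec fun z : (Str × ℕ) × ℕ => pre (y ((z.1.2 - i) / 2))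
      (2 * (z.1.1.tail.length - 1) + (z.1.1.headD false).toNat) :=
    Primrec.list_map (Primrec.list_range.comp a5)
      (hy.comp (a1.comp Primrec.fst) Primrec.snd).to₂
  have hf : Primrec fun z : (Str × ℕ) × ℕ => f z.1.1 z.1.2 z.2 :=
    Primrec.ite ((Primrec.eq.comp (Fn.tb_prim.comp Primrec.snd (a0.comp a1))
      (Primrec.const true)).and ((Primrec.nat_lt.comp (a0.comp a1)
        (Primrec.snd.comp Primrec.fst)).and (Primrec.eq.comp a3 a2)))
      (Primrec.option_some.comp a6) (Primrec.const none)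
  obtain ⟨c, hc⟩ := hW.2 _ (search B hf)
  refine ⟨c + 2, fun n => ?_⟩
  let p : Str := decide (n % 2 = 1) :: (List.range (n / 2 + 1)).map fun s => X (2 * s + i)
  have e1 : 2 * (p.tail.length - 1) + (p.headD false).toNat = n := by
    by_cases h : n % 2 = 1 <;> simp [p, h] <;> omega
  have e2 : p.length = n / 2 + 2 := by simp [p]
  have e3 : ∀ᶠ j in atTop, ∀ s ∈ Finset.range (n / 2 + 1), y j (2 * s + i) = X (2 * s + i) :=
    (Finset.eventually_all _).2 fun s _ => cv _
  obtain ⟨j, h3, h4⟩ := (h1.and_eventually e3).exists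
  obtain ⟨s, hs⟩ := Part.dom_iff_mem.1 ((Nat.rfindOpt_dom (f := fun t => f p t (Fn.cd B t))).2
    ⟨2 * j + i + 1, _, by
      have e : (2 * j + i + 1 - i) / 2 = j := by omega
      refine if_pos ⟨?_, by omega, ?_⟩
      · rw [e, Fn.tb_cd _ _ _ (by omega), h3]
      · simp only [p, List.tail_cons, List.length_map, List.length_range, e]
        exact List.map_congr_left fun s hs => h4 s (by simpa using hs)⟩)
  obtain ⟨t, ht⟩ := Nat.rfindOpt_spec hs
  simp only [f] at ht
  split_ifs at ht with h
  · obtain ⟨h5, h6, h7⟩ := h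
    rw [Fn.tb_cd _ _ _ h6] at h5
    rw [e1, h2 _ h5 n fun u hu => ?_] at ht
    · have := hc.le hs
      rw [← Option.some.inj ht] at this
      omega
    · simp only [p, List.tail_cons, List.length_map, List.length_range] at h7
      exact List.map_inj_left.1 h7 u (by simp; omega)
  · simp at ht

end Pool.Agent.H.MP_fa2eca_lc
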